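import Mathlib

set_option autoImplicit false

/-! Metric mean dimension of maps of the unit interval and the bound `1 - α` for `α`-Hölder maps. -/

namespace Pool.Agent.X87.MetricMeanDim

open Filter Topology

/-- The dynamical distance `d_n(x,y) = max_{0 ≤ j < n} |φ^j(x) - φ^j(y)|` (for `n ≥ 1`). -/
noncomputable def dynDist (φ : Set.Icc (0 : ℝ) 1 → Set.Icc (0 : ℝ) 1) (n : ℕ)
    (x y : Set.Icc (0 : ℝ) 1) : ℝ :=
  ⨆ j : Fin n, |((φ^[j]) x : ℝ) - ((φ^[j]) y : ℝ)|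

/-- `A` is `(n, φ, ε)`-separated: `d_n(x,y) > ε` for all distinct `x, y ∈ A`. -/
def Separated (φ : Set.Icc (0 : ℝ) 1 → Set.Icc (0 : ℝ) 1) (n : ℕ) (ε : ℝ)
    (A : Finset (Set.Icc (0 : ℝ) 1)) : Prop :=
  ∀ x ∈ A, ∀ y ∈ A, x ≠ y → ε < dynDist φ n x y

/-- `sep(n, φ, ε)`: the maximal cardinality of an `(n, φ, ε)`-separated set (in `ℕ∞`). -/
noncomputable def sepNum (φ : Set.Icc (0 : ℝ) 1 → Set.Icc (0 : ℝ) 1) (n : ℕ) (ε : ℝ) : ℕ∞ :=
  ⨆ (A : Finset (Set.Icc (0 : ℝ) 1)) (_ : Separated φ n ε A), (A.card : ℕ∞)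

/-- `sep(φ, ε) = limsup_n (1/n) log sep(n, φ, ε)`. -/
noncomputable def sepRate (φ : Set.Icc (0 : ℝ) 1 → Set.Icc (0 : ℝ) 1) (ε : ℝ) : EReal :=
  limsup (fun n : ℕ => ENNReal.log ((sepNum φ n ε : ℕ∞) : ENNReal) / (n : EReal)) atTop

/-- The upper metric mean dimension: `limsup_{ε → 0+} sep(φ, ε) / |log ε|`. -/
noncomputable def upperMDim (φ : Set.Icc (0 : ℝ) 1 → Set.Icc (0 : ℝ) 1) : EReal :=
  limsup (fun ε : ℝ => sepRate φ ε / ((|Real.log ε| : ℝ) : EReal)) (𝓝[>] 0)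

/-- The lower metric mean dimension: `liminf_{ε → 0+} sep(φ, ε) / |log ε|`. -/
noncomputable def lowerMDim (φ : Set.Icc (0 : ℝ) 1 → Set.Icc (0 : ℝ) 1) : EReal :=
  liminf (fun ε : ℝ => sepRate φ ε / ((|Real.log ε| : ℝ) : EReal)) (𝓝[>] 0)

/-- `φ` is `α`-Hölder continuous: `|φ(x) - φ(y)| ≤ K |x - y|^α` for some `K > 0`. -/
def IsHolder (φ : Set.Icc (0 : ℝ) 1 → Set.Icc (0 : ℝ) 1) (α : ℝ) : Prop :=
  ∃ K : ℝ, 0 < K ∧ ∀ x y : Set.Icc (0 : ℝ) 1, |(φ x : ℝ) - (φ y : ℝ)| ≤ K * |(x : ℝ) - y| ^ α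

section itin

variable (φ : Set.Icc (0 : ℝ) 1 → Set.Icc (0 : ℝ) 1) (ε : ℝ)

/-- The itinerary of length `n` of `x` through the cells of length `ε`. -/
noncomputable def itin (n : ℕ) (x : Set.Icc (0 : ℝ) 1) : Fin n → ℤ :=
  fun j => ⌊((φ^[j]) x : ℝ) / ε⌋

lemma floor_abs_le {a b t : ℝ} (h : |a - b| ≤ t) : |⌊a⌋ - ⌊b⌋| ≤ ⌈t⌉ := by
  have h1 : |(⌊a⌋ : ℝ) - (⌊b⌋ : ℝ)| < t + 1 := by
    rw [abs_lt]
    have := abs_le.1 h
    have ha := Int.floor_le a
    have ha' := Int.lt_floor_add_one a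
    have hb := Int.floor_le b
    have hb' := Int.lt_floor_add_one b
    constructor <;> linarith [this.1, this.2]
  have h2 : ((|⌊a⌋ - ⌊b⌋| : ℤ) : ℝ) < (⌈t⌉ : ℝ) + 1 := by
    push_cast
    exact h1.trans_le (by linarith [Int.le_ceil t])
  have h3 : |⌊a⌋ - ⌊b⌋| < ⌈t⌉ + 1 := by exact_mod_cast h2
  omega

lemma card_itin (hε : 0 < ε) (c : ℕ)
    (hc : ∀ x y : Set.Icc (0 : ℝ) 1, |(x : ℝ) - y| ≤ ε → |(φ x : ℝ) - (φ y : ℝ)| / ε ≤ c)
    (A : Finset (Set.Icc (0 : ℝ) 1)) (n : ℕ) :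
    (A.image (itin φ ε (n + 1))).card ≤ (⌊1 / ε⌋.toNat + 1) * (2 * c + 1) ^ n := by
  classical
  induction n with
  | zero =>
    have hmaps : ∀ w ∈ A.image (itin φ ε (0 + 1)), w 0 ∈ Finset.Icc (0 : ℤ) ⌊1 / ε⌋ := by
      intro w hw
      obtain ⟨x, -, rfl⟩ := Finset.mem_image.1 hw
      simp only [itin, Finset.mem_Icc]
      constructor
      · apply Int.floor_nonneg.2
        exact div_nonneg ((φ^[((0 : Fin (0 + 1)) : ℕ)] x).2).1 hε.le
      · apply Int.floor_le_floor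
        exact div_le_div_of_nonneg_right ((φ^[((0 : Fin (0 + 1)) : ℕ)] x).2).2 hε.le
    have hinj : Set.InjOn (fun w : Fin (0 + 1) → ℤ => w 0) ↑(A.image (itin φ ε (0 + 1))) := by
      intro w _ w' _ h
      ext j
      have : j = 0 := Fin.eq_zero j
      rw [this]; exact h
    have := Finset.card_le_card_of_injOn _ hmaps hinj
    rw [pow_zero, mul_one]
    refine this.trans ?_
    rw [Int.card_Icc]
    have h0 : (0 : ℤ) ≤ ⌊1 / ε⌋ := Int.floor_nonneg.2 (by positivity)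
    omega
  | succ n ih =>
    set s := A.image (itin φ ε (n + 1 + 1)) with hs
    let f : (Fin (n + 1 + 1) → ℤ) → (Fin (n + 1) → ℤ) := fun w j => w j.castSucc
    have himg : s.image f = A.image (itin φ ε (n + 1)) := by
      rw [hs, Finset.image_image]
      rfl
    have hfib : ∀ b ∈ s.image f, (s.filter (fun w => f w = b)).card ≤ 2 * c + 1 := by
      intro b hb
      rw [himg] at hb
      obtain ⟨x0, hx0, rfl⟩ := Finset.mem_image.1 hb
      set k0 : ℤ := ⌊((φ^[n + 1]) x0 : ℝ) / ε⌋ with hk0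
      have hmaps : ∀ w ∈ s.filter (fun w => f w = itin φ ε (n + 1) x0),
          w (Fin.last (n + 1)) ∈ Finset.Icc (k0 - c) (k0 + c) := by
        intro w hw
        obtain ⟨hw1, hw2⟩ := Finset.mem_filter.1 hw
        obtain ⟨x, -, rfl⟩ := Finset.mem_image.1 hw1
        have h1 := congrFun hw2 (Fin.last n)
        simp only [f, itin] at h1
        have h2 : ⌊((φ^[n]) x : ℝ) / ε⌋ = ⌊((φ^[n]) x0 : ℝ) / ε⌋ := by simpa using h1
        have h3 : |((φ^[n]) x : ℝ) - ((φ^[n]) x0 : ℝ)| ≤ ε := by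
          have := Int.abs_sub_lt_one_of_floor_eq_floor h2
          rw [← sub_div, abs_div, abs_of_pos hε, div_lt_one hε] at this
          exact this.le
        have h4 := hc _ _ h3
        rw [← Function.iterate_succ_apply' φ, ← Function.iterate_succ_apply' φ] at h4
        have h5 : |((φ^[n + 1]) x : ℝ) / ε - ((φ^[n + 1]) x0 : ℝ) / ε| ≤ (c : ℝ) := by
          rw [← sub_div, abs_div, abs_of_pos hε]
          exact h4
        have h6 := floor_abs_le h5
        rw [Int.ceil_natCast] at h6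
        have h7 := abs_le.1 h6
        simp only [itin, Fin.val_last, Finset.mem_Icc]
        constructor <;> [linarith [h7.1]; linarith [h7.2]]
      have hinj : Set.InjOn (fun w : Fin (n + 1 + 1) → ℤ => w (Fin.last (n + 1)))
          ↑(s.filter (fun w => f w = itin φ ε (n + 1) x0)) := by
        intro w hw w' hw' h
        have e1 := (Finset.mem_filter.1 hw).2
        have e2 := (Finset.mem_filter.1 hw').2
        ext j
        refine Fin.lastCases ?_ ?_ j
        · exact h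
        · intro i
          have := congrFun (e1.trans e2.symm) i
          exact this
      have := Finset.card_le_card_of_injOn _ hmaps hinj
      refine this.trans ?_
      rw [Int.card_Icc]
      omega
    have := Finset.card_le_mul_card_image s (2 * c + 1) hfib
    rw [himg] at this
    calc s.card ≤ (2 * c + 1) * (A.image (itin φ ε (n + 1))).card := this
      _ ≤ (2 * c + 1) * ((⌊1 / ε⌋.toNat + 1) * (2 * c + 1) ^ n) := Nat.mul_le_mul_left _ ih
      _ = _ := by ring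

lemma separated_card_le (hε : 0 < ε) (c : ℕ)
    (hc : ∀ x y : Set.Icc (0 : ℝ) 1, |(x : ℝ) - y| ≤ ε → |(φ x : ℝ) - (φ y : ℝ)| / ε ≤ c)
    (A : Finset (Set.Icc (0 : ℝ) 1)) (n : ℕ) (hA : Separated φ (n + 1) ε A) :
    A.card ≤ (⌊1 / ε⌋.toNat + 1) * (2 * c + 1) ^ n := by
  classical
  have hinj : Set.InjOn (itin φ ε (n + 1)) ↑A := by
    intro x hx y hy hxy
    by_contra hne
    have h1 := hA x hx y hy hne
    have h2 : dynDist φ (n + 1) x y ≤ ε := by
      unfold dynDist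
      apply ciSup_le
      intro j
      have h2 : ⌊((φ^[j]) x : ℝ) / ε⌋ = ⌊((φ^[j]) y : ℝ) / ε⌋ := congrFun hxy j
      have := Int.abs_sub_lt_one_of_floor_eq_floor h2
      rw [← sub_div, abs_div, abs_of_pos hε, div_lt_one hε] at this
      exact this.le
    linarith
  rw [← Finset.card_image_of_injOn hinj]
  exact card_itin φ ε hε c hc A n

end itin

/-- The fundamental estimate: for an `α`-Hölder map, `sep(φ, ε) ≤ log (2K+3) + (1-α) |log ε|`. -/
lemma sepRate_le (φ : Set.Icc (0 : ℝ) 1 → Set.Icc (0 : ℝ) 1) (α : ℝ) (hα0 : 0 < α) (hα : α ≤ 1)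
    (K : ℝ) (hK : 0 < K)
    (hφ : ∀ x y : Set.Icc (0 : ℝ) 1, |(φ x : ℝ) - (φ y : ℝ)| ≤ K * |(x : ℝ) - y| ^ α)
    (ε : ℝ) (hε : 0 < ε) (hε1 : ε < 1) :
    sepRate φ ε ≤ ((Real.log (2 * K + 3) + (1 - α) * |Real.log ε| : ℝ) : EReal) := by
  set c : ℕ := ⌈K * ε ^ (α - 1)⌉₊ with hcdef
  have hc : ∀ x y : Set.Icc (0 : ℝ) 1, |(x : ℝ) - y| ≤ ε → |(φ x : ℝ) - (φ y : ℝ)| / ε ≤ c := by
    intro x y hxy
    have h1 : |(φ x : ℝ) - (φ y : ℝ)| ≤ K * ε ^ α :=
      (hφ x y).trans (mul_le_mul_of_nonneg_left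
        (Real.rpow_le_rpow (abs_nonneg _) hxy hα0.le) hK.le)
    calc |(φ x : ℝ) - (φ y : ℝ)| / ε ≤ K * ε ^ α / ε := div_le_div_of_nonneg_right h1 hε.le
      _ = K * ε ^ (α - 1) := by rw [Real.rpow_sub hε, Real.rpow_one]; ring
      _ ≤ c := Nat.le_ceil _
  set M : ℝ := ((⌊1 / ε⌋.toNat + 1 : ℕ) : ℝ) with hM
  have hMpos : 0 < M := by rw [hM]; positivity
  set L : ℝ := Real.log (2 * c + 1) with hL
  -- bound for each n
  have hn : ∀ n : ℕ, 1 ≤ n → ENNReal.log ((sepNum φ n ε : ℕ∞) : ENNReal) / (n : EReal)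
      ≤ ((Real.log M / n + L : ℝ) : EReal) := by
    intro n hn
    obtain ⟨m, rfl⟩ : ∃ m, n = m + 1 := ⟨n - 1, by omega⟩
    have h1 : sepNum φ (m + 1) ε ≤ (((⌊1 / ε⌋.toNat + 1) * (2 * c + 1) ^ m : ℕ) : ℕ∞) := by
      unfold sepNum
      refine iSup_le fun A => iSup_le fun hA => ?_
      exact_mod_cast separated_card_le φ ε hε c hc A m hA
    have h2 : ((sepNum φ (m + 1) ε : ℕ∞) : ENNReal)
        ≤ (((⌊1 / ε⌋.toNat + 1) * (2 * c + 1) ^ m : ℕ) : ENNReal) := by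
      have := ENat.toENNReal_le.2 h1
      simpa using this
    have h3 : (((⌊1 / ε⌋.toNat + 1) * (2 * c + 1) ^ m : ℕ) : ENNReal)
        = ENNReal.ofReal (M * (2 * c + 1) ^ m) := by
      rw [← ENNReal.ofReal_natCast]
      congr 1
      rw [hM]; push_cast; ring
    have hpos : 0 < M * (2 * (c : ℝ) + 1) ^ m := by positivity
    have h4 : ENNReal.log ((sepNum φ (m + 1) ε : ℕ∞) : ENNReal)
        ≤ ((Real.log M + m * L : ℝ) : EReal) := by
      refine (ENNReal.log_le_log (h2.trans h3.le)).trans ?_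
      rw [ENNReal.log_ofReal_of_pos hpos, Real.log_mul hMpos.ne' (by positivity), Real.log_pow]
    have hL0 : 0 ≤ L := Real.log_nonneg (by linarith [(Nat.cast_nonneg c : (0 : ℝ) ≤ c)])
    have h5 : ((Real.log M + m * L : ℝ) : EReal) ≤ ((Real.log M + (m + 1 : ℕ) * L : ℝ) : EReal) := by
      rw [EReal.coe_le_coe_iff]; push_cast; nlinarith
    have h6 : ENNReal.log ((sepNum φ (m + 1) ε : ℕ∞) : ENNReal) / ((m + 1 : ℕ) : EReal)
        ≤ ((Real.log M + (m + 1 : ℕ) * L : ℝ) : EReal) / ((m + 1 : ℕ) : EReal) :=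
      EReal.div_le_div_right_of_nonneg (by positivity) (h4.trans h5)
    refine h6.trans (le_of_eq ?_)
    have h7 : (((m + 1 : ℕ) : ℝ) : EReal) = ((m + 1 : ℕ) : EReal) := by norm_cast
    rw [← h7, ← EReal.coe_div]
    congr 1
    have : ((m + 1 : ℕ) : ℝ) ≠ 0 := by positivity
    field_simp
  have hlim : Tendsto (fun n : ℕ => ((Real.log M / n + L : ℝ) : EReal)) atTop
      (𝓝 ((L : ℝ) : EReal)) := by
    apply (continuous_coe_real_ereal.tendsto L).comp
    have := (tendsto_const_div_atTop_nhds_zero_nat (Real.log M)).add_const L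
    simpa using this
  have h1 : sepRate φ ε ≤ ((L : ℝ) : EReal) := by
    unfold sepRate
    rw [← hlim.limsup_eq]
    refine limsup_le_limsup ?_ (by isBoundedDefault) (by isBoundedDefault)
    filter_upwards [eventually_ge_atTop 1] with n hn1 using hn n hn1
  refine h1.trans ?_
  rw [EReal.coe_le_coe_iff]
  -- real estimate
  have hεα : 1 ≤ ε ^ (α - 1) := by
    apply Real.one_le_rpow_of_pos_of_le_one_of_nonpos hε hε1.le; linarith
  have hceil : (c : ℝ) ≤ K * ε ^ (α - 1) + 1 := (Nat.ceil_lt_add_one (by positivity)).le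
  have h2 : (2 * (c : ℝ) + 1) ≤ (2 * K + 3) * ε ^ (α - 1) := by nlinarith
  have h3 : L ≤ Real.log ((2 * K + 3) * ε ^ (α - 1)) :=
    Real.log_le_log (by positivity) h2
  rw [Real.log_mul (by positivity) (by positivity), Real.log_rpow hε] at h3
  have h4 : |Real.log ε| = - Real.log ε := abs_of_neg (Real.log_neg hε hε1)
  rw [h4]
  linarith

/-- For every `α`-Hölder map of the unit interval, `0 < α ≤ 1`, the upper metric mean dimension is
at most `1 - α`. -/
theorem upperMDim_le (φ : Set.Icc (0 : ℝ) 1 → Set.Icc (0 : ℝ) 1) (α : ℝ) (hα0 : 0 < α)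
    (hα : α ≤ 1) (hφ : IsHolder φ α) : upperMDim φ ≤ ((1 - α : ℝ) : EReal) := by
  obtain ⟨K, hK, hφ⟩ := hφ
  have hlog : Tendsto (fun ε : ℝ => |Real.log ε|) (𝓝[>] 0) atTop :=
    tendsto_abs_atBot_atTop.comp Real.tendsto_log_nhdsGT_zero
  have hlim : Tendsto (fun ε : ℝ =>
      ((Real.log (2 * K + 3) / |Real.log ε| + (1 - α) : ℝ) : EReal)) (𝓝[>] 0)
      (𝓝 ((1 - α : ℝ) : EReal)) := by
    apply (continuous_coe_real_ereal.tendsto (1 - α)).comp
    have := (hlog.const_div_atTop (Real.log (2 * K + 3))).add_const (1 - α)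
    simpa using this
  unfold upperMDim
  rw [← hlim.limsup_eq]
  refine limsup_le_limsup ?_ (by isBoundedDefault) (by isBoundedDefault)
  have hsmall : ∀ᶠ ε : ℝ in 𝓝[>] 0, ε ∈ Set.Ioo (0 : ℝ) 1 :=
    Ioo_mem_nhdsGT (by norm_num)
  filter_upwards [hsmall] with ε hε
  have hpos : 0 < |Real.log ε| := abs_pos.2 (Real.log_neg hε.1 hε.2).ne
  have h1 := sepRate_le φ α hα0 hα K hK hφ ε hε.1 hε.2
  have h2 : sepRate φ ε / ((|Real.log ε| : ℝ) : EReal)
      ≤ ((Real.log (2 * K + 3) + (1 - α) * |Real.log ε| : ℝ) : EReal)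
        / ((|Real.log ε| : ℝ) : EReal) :=
    EReal.div_le_div_right_of_nonneg (by exact_mod_cast hpos.le) h1
  refine h2.trans (le_of_eq ?_)
  rw [← EReal.coe_div]
  congr 1
  field_simp

/-- The metric mean dimension is nonnegative. -/
theorem zero_le_upperMDim (φ : Set.Icc (0 : ℝ) 1 → Set.Icc (0 : ℝ) 1) : 0 ≤ upperMDim φ := by
  unfold upperMDim
  apply le_limsup_of_frequently_le'
  apply Eventually.frequently
  filter_upwards with ε
  apply EReal.div_nonneg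
  · unfold sepRate
    apply le_limsup_of_frequently_le'
    apply Eventually.frequently
    filter_upwards with n
    apply EReal.div_nonneg
    · rw [ENNReal.zero_le_log_iff]
      have h1 : (1 : ℕ∞) ≤ sepNum φ n ε := by
        unfold sepNum
        refine le_iSup_of_le ({⟨0, by norm_num⟩} : Finset (Set.Icc (0 : ℝ) 1)) ?_
        refine le_iSup_of_le ?_ (by simp)
        intro x hx y hy hxy
        rw [Finset.mem_singleton] at hx hy
        exact absurd (hx.trans hy.symm) hxy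
      exact_mod_cast ENat.toENNReal_le.2 h1
    · exact_mod_cast (Nat.cast_nonneg n : (0 : ℝ) ≤ (n : ℝ))
  · exact_mod_cast abs_nonneg (Real.log ε)

end Pool.Agent.X87.MetricMeanDim
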